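import Pool.Agent.Q282.MM.Stm2

/-! # The empirical form of the estimate. -/

set_option autoImplicit false

namespace Q282MM

open MeasureTheory ProbabilityTheory Finset
open scoped ENNReal

theorem emp (h : S_Fin) (n : ℕ) (hn : 1 ≤ n) : ∃ C : ℝ, 0 ≤ C ∧
    (∀ (α : Type) (V : Finset α) (z : α → ℝ) (η : ℝ), V.Nonempty → 0 ≤ η →
      (∀ k ≤ 2 * n, |(∑ v ∈ V, z v ^ k) / (V.card : ℝ) - (gm k : ℝ)| ≤ η) →
      ∀ x : ℝ, |((V.filter fun v => z v ≤ x).card : ℝ) / (V.card : ℝ) - Phi x| ≤ 4 / √(n : ℝ) + C * η) ∧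
    ∀ (ν : Measure ℝ) [IsProbabilityMeasure ν], (∀ k ≤ 2 * n, Integrable (fun x : ℝ => x ^ k) ν) →
      (∀ k ≤ 2 * n, ∫ x, x ^ k ∂ν = (gm k : ℝ)) → ∀ x : ℝ, |ν.real (Set.Iic x) - Phi x| ≤ 4 / √(n : ℝ) := by
  classical
  obtain ⟨C, hC, h1⟩ := h n hn
  refine ⟨C, hC, fun α V z η hV hη hz x => ?_, fun ν _ hi hk x => ?_⟩
  · have hcard : (V.card : ℝ≥0∞) ≠ 0 := by
      simpa using hV.ne_empty
    have hcard' : (V.card : ℝ≥0∞) ≠ ∞ := ENNReal.natCast_ne_top _
    let μ : Measure ℝ := (V.card : ℝ≥0∞)⁻¹ • ∑ v ∈ V, Measure.dirac (z v)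
    have hμ : μ = (V.card : ℝ≥0∞)⁻¹ • ∑ v ∈ V, Measure.dirac (z v) := rfl
    have hprob : IsProbabilityMeasure μ := by
      constructor
      rw [hμ, Measure.smul_apply, Measure.finsetSum_apply]
      simp only [measure_univ, sum_const, nsmul_eq_mul, mul_one, smul_eq_mul]
      exact ENNReal.inv_mul_cancel hcard hcard'
    have hint : ∀ f : ℝ → ℝ, Measurable f → Integrable f μ ∧ ∫ x, f x ∂μ = (∑ v ∈ V, f (z v)) / (V.card : ℝ) := by
      intro f hf
      have h2 : ∀ v ∈ V, Integrable f (Measure.dirac (z v)) := fun v _ =>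
        integrable_dirac (by simp)
      refine ⟨?_, ?_⟩
      · rw [hμ]
        refine Integrable.smul_measure ?_ (ENNReal.inv_ne_top.2 hcard)
        exact integrable_finsetSum_measure.2 h2
      · rw [hμ, integral_smul_measure, integral_finsetSum_measure h2]
        simp only [integral_dirac]
        rw [ENNReal.toReal_inv, ENNReal.toReal_natCast, smul_eq_mul, div_eq_inv_mul]
    have h2 := h1 μ η hη (fun k _ => (hint (fun x => x ^ k) (measurable_id.pow_const k)).1)
      (fun k hk => by rw [(hint (fun x => x ^ k) (measurable_id.pow_const k)).2]; exact hz k hk) x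
    have h3 : μ.real (Set.Iic x) = ((V.filter fun v => z v ≤ x).card : ℝ) / (V.card : ℝ) := by
      have h4 := (hint ((Set.Iic x).indicator 1) (measurable_one.indicator measurableSet_Iic)).2
      rw [integral_indicator_one measurableSet_Iic] at h4
      rw [h4]
      congr 1
      rw [card_filter]
      push_cast
      refine sum_congr rfl fun v _ => ?_
      simp only [Set.indicator_apply, Set.mem_Iic, Pi.one_apply]
    rwa [h3] at h2
  · have h2 := h1 ν 0 le_rfl hi (fun k h => by rw [hk k h]; simp) x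
    simpa using h2

end Q282MM
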