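import Mathlib

/-! # Project MM (helper282): the Gaussian law up to an absolute constant times `1/√n` from the first
`2n` moments. Statements of the lemma jobs; everything is about the standard Lebesgue/Mathlib notions. -/

set_option autoImplicit false

namespace Q282MM

open MeasureTheory ProbabilityTheory Finset

/-- the moments of the standard normal law: `(k-1)‼` for even `k`, `0` for odd `k` -/
def gm (k : ℕ) : ℕ := if Even k then (k - 1).doubleFactorial else 0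

/-- the distribution function of the standard normal law -/
noncomputable def Phi (x : ℝ) : ℝ := (gaussianReal 0 1).real (Set.Iic x)

/-- JOB REM: Taylor remainder of `exp` in the closed left half plane. -/
def S_Rem : Prop := ∀ (z : ℂ) (m : ℕ), z.re ≤ 0 →
  ‖Complex.exp z - ∑ k ∈ range m, z ^ k / (k.factorial : ℂ)‖ ≤ ‖z‖ ^ m / (m.factorial : ℝ)

/-- JOB CF: the characteristic function from the moments of order at most `2n`. -/
def S_CF : Prop := ∀ (μ : Measure ℝ) [IsProbabilityMeasure μ] (n : ℕ) (η : ℝ), 1 ≤ n → 0 ≤ η →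
  (∀ k ≤ 2 * n, Integrable (fun x : ℝ => x ^ k) μ) →
  (∀ k ≤ 2 * n, |∫ x, x ^ k ∂μ - (gm k : ℝ)| ≤ η) →
  ∀ t : ℝ, 0 ≤ t →
    ‖charFun μ t - Complex.exp (-((t : ℂ) ^ 2 / 2))‖ ≤
      η * (Real.exp t - 1) + t ^ (2 * n) * ((gm (2 * n) : ℝ) + η) / ((2 * n).factorial : ℝ) +
        (t ^ 2 / 2) ^ n / (n.factorial : ℝ)

/-- JOB ESS: Esseen's smoothing inequality with the normal law. `b` bounds the quotient
`|φ_μ(t) - exp(-t²/2)| / t`. -/
def S_Ess : Prop := ∀ (μ : Measure ℝ) [IsProbabilityMeasure μ] (R : ℝ) (b : ℝ → ℝ), 0 < R →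
  Continuous b → (∀ t, 0 < t → t ≤ R → ‖charFun μ t - Complex.exp (-((t : ℂ) ^ 2 / 2))‖ ≤ t * b t) →
  ∀ x : ℝ, |μ.real (Set.Iic x) - Phi x| ≤
    2 / Real.pi * (∫ t in (0 : ℝ)..R, b t) + 24 / (Real.pi * √(2 * Real.pi) * R)

/-- JOB FIN: the final estimate. -/
def S_Fin : Prop := ∀ n : ℕ, 1 ≤ n → ∃ C : ℝ, 0 ≤ C ∧
  ∀ (μ : Measure ℝ) [IsProbabilityMeasure μ] (η : ℝ), 0 ≤ η →
  (∀ k ≤ 2 * n, Integrable (fun x : ℝ => x ^ k) μ) →
  (∀ k ≤ 2 * n, |∫ x, x ^ k ∂μ - (gm k : ℝ)| ≤ η) →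
  ∀ x : ℝ, |μ.real (Set.Iic x) - Phi x| ≤ 4 / √(n : ℝ) + C * η

/-- JOB COMB: the moments of a linear combination of independent normal variables
(a finite combinatorial identity; `Finset.piAntidiag univ k` is the set of `κ : Fin s → ℕ` with sum `k`). -/
def S_Comb : Prop := ∀ (s : ℕ) (θ : Fin s → ℝ) (k : ℕ),
  ∑ κ ∈ Finset.piAntidiag (Finset.univ : Finset (Fin s)) k,
      (Nat.multinomial Finset.univ κ : ℝ) * (∏ i, θ i ^ κ i) * ∏ i, (gm (κ i) : ℝ) =
    (√(∑ i, θ i ^ 2)) ^ k * (gm k : ℝ)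

end Q282MM
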