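import Pool.Agent.Q282.MM.Emp
import Pool.Agent.Q177.MM.RemCF
import Pool.Agent.Q177.MM.Comb
import Pool.Agent.Q177.MM.Fin
import Pool.Agent.Q176.MM.Match
import Pool.Agent.Q285.MM.Ess

/-! # The statements of project MM are proved. -/

set_option autoImplicit false

namespace Q282MM

theorem fin_true : S_Fin := Q177.MM.fin Q177.MM.cf Q285MM.ess

theorem comb_true : S_Comb := Q177.MM.comb

theorem match_true : S_Match := Q176MM.smatch

end Q282MM
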