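import Pool.Agent.Q282.MM.Stm

/-! # Project MM (helper282): the number of the perfect matchings. -/

set_option autoImplicit false

namespace Q282MM

/-- JOB MATCH: the number of the symmetric `N × N` matrices over `ℕ` with even diagonal and row sums
`1, ..., 1, 0, ..., 0` (`κ` ones) is the number of the perfect matchings of `κ` points. -/
def S_Match : Prop := ∀ N κ : ℕ, κ ≤ N →
  Nat.card {S : Matrix (Fin N) (Fin N) ℕ //
    (∀ j k, S j k = S k j) ∧ (∀ j, Even (S j j)) ∧ ∀ j, ∑ k, S j k = if (j : ℕ) < κ then 1 else 0} = gm κ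

end Q282MM
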